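import Pool.Agent.X192.BM.ConeHilbert
import Pool.Agent.H305R3.Rot.Amen

/-!
# Banach-Mazur rotation problem: the uniform cone condition

Let `E` be a separable Banach space, `κ < 1` and `t > 0`, such that for all unit vectors `x, y, u`
with `‖x - y‖ ≤ t` some linear isometry `T` with `T x = y` satisfies `‖T u - l u‖ ≤ κ` for some
`l ≥ 0`, i.e. the distance of `T u` to the ray through `u` is at most `κ` (the distance is at most
`1` for every linear isometry, so `κ < 1` is a uniform improvement of the trivial bound). Then `E`
is isomorphic to a Hilbert space, and isometric to one if the group of linear isometries is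
amenable in the strong operator topology.

Proof outline.

1. `X192/BM/Cone.lean`: let `d(x,w) = |x+w| + |x-w| - 2|x|`. If `(x,w)` nearly maximises
   `d(x,w)/|w|^2` among `|w| ≥ σ`, write `w = (1-κ) (l/(1-κ)) w' + κ v` with `w'` the image of `w`
   under an isometry carrying a point of the segment `x + k c w` to (a multiple of) `x`, and
   `|v| ≤ |w|`. Convexity and monotonicity of `d` along rays show that `d(x + k c w, c w)` stays
   comparable to the maximum, for `c = 4/(1-κ)`; summing these second differences bounds the
   maximum independently of `σ`. So the norm is smooth of power type 2.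
2. `H755R2/MT/Slice.lean` (starting library): hence `E` is reflexive, the norm is transitive and
   all slices given by norming functionals are uniformly small.
3. `X192/BM/ConeHilbert.lean`: an Euler path along an almost flat direction `v`, transported by
   isometries, advances in each step by at least `(1-κ)/(1+κ) |v|` with respect to the norming
   functional of `v`, and its norming functionals hardly turn; it would leave a small slice without
   turning. So norming functionals expose quadratically and the dual norm is also smooth of power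
   type 2. The second differences of the squared norm are then pinched and an invariant mean of the
   additive group gives an equivalent inner product (`H755R2/MT/Hilbert.lean`).
4. An amenable isometry group gives an invariant inner product (`H305R3/Rot/Amen.lean`).
-/

set_option autoImplicit false
set_option linter.unusedVariables false

namespace Pool.Agent.Results.MP_cc72b1_an.ConeCondition

open Pool.H305R3.Rot Pool.H755R2.MT Pool.Agent.X192.BM

lemma zero_case (E : Type) [NormedAddCommGroup E] [NormedSpace ℝ E] (h : ¬ ∃ x : E, ‖x‖ = 1) :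
    ∃ (H : Type) (instH : NormedAddCommGroup H) (instI : InnerProductSpace ℝ H)
      (instC : CompleteSpace H), Nonempty (E ≃ₗᵢ[ℝ] H) := by
  have h0 : ∀ v : E, v = 0 := by
    intro v
    by_contra hv
    apply h
    refine ⟨‖v‖⁻¹ • v, ?_⟩
    rw [norm_smul, norm_inv, norm_norm, inv_mul_cancel₀ (norm_ne_zero_iff.2 hv)]
  refine ⟨EuclideanSpace ℝ (Fin 0), inferInstance, inferInstance, inferInstance, ⟨?_⟩⟩
  exact
    { toFun := fun _ => 0
      invFun := fun _ => 0
      map_add' := fun _ _ => by simp
      map_smul' := fun _ _ => by simp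
      left_inv := fun v => (h0 v).symm
      right_inv := fun v => Subsingleton.elim _ _
      norm_map' := fun v => by rw [h0 v]; simp }

lemma transitive {E : Type} [NormedAddCommGroup E] [NormedSpace ℝ E] {κ t : ℝ} (ht : 0 < t)
    (h : UCT E κ t) (x y : E) (hx : ‖x‖ = 1) (hy : ‖y‖ = 1) : ∃ T : E ≃ₗᵢ[ℝ] E, T x = y := by
  rcases lt_or_ge 1 (Module.rank ℝ E) with hrank | hrank
  · exact transitive_of_ULT hrank ht (ult_of_uct h) x y hx hy
  · obtain ⟨v, hv⟩ := rank_le_one_iff.1 hrank
    obtain ⟨r, hr⟩ := hv x
    obtain ⟨s, hs⟩ := hv y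
    have h1 : |r| * ‖v‖ = 1 := by rw [← Real.norm_eq_abs, ← norm_smul, hr, hx]
    have h2 : |s| * ‖v‖ = 1 := by rw [← Real.norm_eq_abs, ← norm_smul, hs, hy]
    have hv0 : ‖v‖ ≠ 0 := by
      intro h0
      rw [h0, mul_zero] at h1
      exact zero_ne_one h1
    have h3 : |r| = |s| := mul_right_cancel₀ hv0 (h1.trans h2.symm)
    rcases abs_eq_abs.1 h3 with h4 | h4
    · exact ⟨LinearIsometryEquiv.refl ℝ E, by rw [← hr, ← hs, h4]; rfl⟩
    · refine ⟨LinearIsometryEquiv.neg ℝ, ?_⟩
      rw [← hr, ← hs, h4, neg_smul]
      show -(-(s • v)) = s • v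
      rw [neg_neg]

theorem result :
    ∀ (E : Type) [NormedAddCommGroup E] [NormedSpace ℝ E] [CompleteSpace E]
      [TopologicalSpace.SeparableSpace E] (κ t : ℝ), κ < 1 → 0 < t →
      (∀ x y u : E, ‖x‖ = 1 → ‖y‖ = 1 → ‖u‖ = 1 → ‖x - y‖ ≤ t →
        ∃ (T : E ≃ₗᵢ[ℝ] E) (l : ℝ), 0 ≤ l ∧ T x = y ∧ ‖T u - l • u‖ ≤ κ) →
      (∃ (H : Type) (instH : NormedAddCommGroup H) (instI : InnerProductSpace ℝ H)
        (instC : CompleteSpace H), Nonempty (E ≃L[ℝ] H)) ∧
      (SOTAmenable E →
        ∃ (H : Type) (instH : NormedAddCommGroup H) (instI : InnerProductSpace ℝ H)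
          (instC : CompleteSpace H), Nonempty (E ≃ₗᵢ[ℝ] H)) := by
  intro E _ _ _ _ κ t hκ ht h
  have hd := Pool.Agent.X192.BM.main hκ ht h
  refine ⟨hd, fun hA => ?_⟩
  by_cases hx : ∃ x : E, ‖x‖ = 1
  · obtain ⟨x, hx⟩ := hx
    obtain ⟨H, i1, i2, i3, ⟨A⟩⟩ := hd
    exact isometric_of_amenable (transitive ht h) hA x hx A
  · exact zero_case E hx

end Pool.Agent.Results.MP_cc72b1_an.ConeCondition
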