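import Pool.Agent.X192.BM.Main

/-!
# Banach-Mazur rotation problem: second order bounds along a dense Hilbert range

Proof outline. By the starting files `Pool/Agent/Y278/Rot/*` a separable transitive norm has, at
every unit vector, second order expansions along a dense subspace, with no uniformity.  The
functional `sup_t (second order quotient along t w)`, to the power `1/2`, is subadditive in `w`
(convexity); so small multiples of a dense sequence of directions define a compact operator `j`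
from `ℓ²` with dense range along which the norm is uniformly smooth of order two, at one point and,
after composing `j` with isometries, at all points.  The quotients are then equicontinuous along
the range, hence the expansions hold along the whole range, with one and the same bounded form `A`.
Testing `f + φ` on `x + s T (j h)` gives the quadratic lower bound for the dual norm; no
reflexivity is used.
-/

set_option autoImplicit false

namespace Pool.Agent.Results.MP_cc72b1_an.HilbertRanges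

open Filter Topology

variable {E : Type} [NormedAddCommGroup E] [NormedSpace ℝ E] {H : Type} [NormedAddCommGroup H]
  [InnerProductSpace ℝ H]

/-- (1) `‖x + T (j h)‖ ≤ 1 + f (T (j h)) + ‖h‖ ^ 2` for all `h`. -/
def Upper (j : H →L[ℝ] E) (T : E ≃ₗᵢ[ℝ] E) (x : E) (f : E →L[ℝ] ℝ) : Prop :=
  ∀ h, ‖x + T (j h)‖ ≤ 1 + f (T (j h)) + ‖h‖ ^ 2

/-- (2) `‖x + t T (j h)‖ = 1 + t f (T (j h)) + t ^ 2 A h h + o(t ^ 2)` for all `h`. -/
def Expands (j : H →L[ℝ] E) (A : H →L[ℝ] H →L[ℝ] ℝ) (T : E ≃ₗᵢ[ℝ] E) (x : E)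
    (f : E →L[ℝ] ℝ) : Prop :=
  ∀ h, Tendsto (fun t : ℝ => (‖x + t • T (j h)‖ - 1 - t * f (T (j h))) / t ^ 2)
    (𝓝[≠] 0) (𝓝 (A h h))

/-- (3) `‖f + φ‖ ≥ 1 + φ x + φ (T (j h)) ^ 2 / 9` for all functionals `φ` of norm at most one and all
`h` of norm at most one with `f (T (j h)) = 0`. -/
def DualLower (j : H →L[ℝ] E) (T : E ≃ₗᵢ[ℝ] E) (x : E) (f : E →L[ℝ] ℝ) : Prop :=
  ∀ φ : E →L[ℝ] ℝ, ‖φ‖ ≤ 1 → ∀ h, ‖h‖ ≤ 1 → f (T (j h)) = 0 →
    1 + φ x + (φ (T (j h))) ^ 2 / 9 ≤ ‖f + φ‖

/-- (4) for every functional `φ` which is not a multiple of `f` there is an `h` of norm at most one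
with `f (T (j h)) = 0` and `φ (T (j h)) ≠ 0`. -/
def Definite (j : H →L[ℝ] E) (T : E ≃ₗᵢ[ℝ] E) (f : E →L[ℝ] ℝ) : Prop :=
  ∀ φ : E →L[ℝ] ℝ, (∀ c : ℝ, φ ≠ c • f) → ∃ h, ‖h‖ ≤ 1 ∧ f (T (j h)) = 0 ∧ φ (T (j h)) ≠ 0

/-- Let `E` be a separable real Banach space whose norm is transitive. There are one compact
operator `j` from a real Hilbert space `H` into `E` with dense range and one bounded symmetric
bilinear form `A` on `H`, `0 ≤ A h h ≤ ‖h‖ ^ 2`, such that for every unit vector `x` there are a linear isometry `T` of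
`E` and a norm one functional `f` with `f x = 1` and the properties (1) to (4) above. -/
theorem result :
    ∀ (E : Type) [NormedAddCommGroup E] [NormedSpace ℝ E] [CompleteSpace E]
      [TopologicalSpace.SeparableSpace E],
      (∀ x y : E, ‖x‖ = 1 → ‖y‖ = 1 → ∃ T : E ≃ₗᵢ[ℝ] E, T x = y) →
      ∃ (H : Type) (_ : NormedAddCommGroup H) (_ : InnerProductSpace ℝ H) (_ : CompleteSpace H)
        (j : H →L[ℝ] E) (A : H →L[ℝ] H →L[ℝ] ℝ), DenseRange j ∧ IsCompactOperator j ∧ (∀ g h, A g h = A h g) ∧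
        (∀ h, 0 ≤ A h h ∧ A h h ≤ ‖h‖ ^ 2) ∧
        ∀ x : E, ‖x‖ = 1 → ∃ (T : E ≃ₗᵢ[ℝ] E) (f : E →L[ℝ] ℝ), ‖f‖ = 1 ∧ f x = 1 ∧
          Upper j T x f ∧ Expands j A T x f ∧ DualLower j T x f ∧ Definite j T f := by
  intro E _ _ _ _ hG
  obtain ⟨j, A, h⟩ := Pool.Agent.X192.BM.main E hG
  exact ⟨lp (fun _ : ℕ => ℝ) 2, inferInstance, inferInstance, inferInstance, j, A, h⟩

end Pool.Agent.Results.MP_cc72b1_an.HilbertRanges
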