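import Pool.Agent.X192.BM.Invol

/-!
# Banach-Mazur rotation problem: planes forced by one isometric involution

Proof outline. Let `S` be an isometric involution, `S ≠ 1, -1` (for instance the change of sign on a
band of a Banach lattice). By transitivity and a Baire category argument there is a conjugate `S'` of
`S` such that `U = S S'` is not unipotent but has spectrum close to `1`; the smooth functional
calculus of `U` gives unit vectors `w` in the fixed space of `S` on which `(U + U⁻¹) / 2` is almost
the multiplication by `cos θ`, `θ > 0` small (starting files `Pool/Agent/W687/Rot*`, used there for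
the angle `π / 4`). With `v` proportional to `U w - U⁻¹ w`, the iterates of `U` almost rotate the
plane of `w` and `v` by all multiples of `θ`, hence the norm of the plane is almost Euclidean.
Transitivity moves `w` to any given unit vector `e`.
-/

set_option autoImplicit false

namespace Pool.Agent.Results.MP_cc72b1_an.InvolutionPlanes

variable {E : Type} [NormedAddCommGroup E] [NormedSpace ℝ E]

/-- Up to `δ`, the powers of the isometry `U` rotate the vectors `e` and `v` of the plane spanned by
`e` and `v` by all angles `φ` between `0` and `2 π`. -/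
def AlmostRotates (U : E ≃ₗᵢ[ℝ] E) (e v : E) (δ : ℝ) : Prop :=
  ∀ φ : ℝ, 0 ≤ φ → φ ≤ 2 * Real.pi → ∃ k : ℕ,
    ‖(U ^ k) e - (Real.cos φ • e + Real.sin φ • v)‖ ≤ δ ∧
    ‖(U ^ k) v - (Real.cos φ • v - Real.sin φ • e)‖ ≤ δ

/-- The norm of the plane spanned by `e` and `v` is Euclidean up to a factor `1 ± δ`, with `e` and
`v` orthonormal. -/
def AlmostEuclidean (e v : E) (δ : ℝ) : Prop :=
  ∀ p q : ℝ, |‖p • e + q • v‖ - Real.sqrt (p ^ 2 + q ^ 2)| ≤ δ * Real.sqrt (p ^ 2 + q ^ 2)

/-- Let `E` be a separable real Banach space with transitive norm which has an isometric involution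
`S`, different from `1` and `-1`. Then for every unit vector `e` and every `δ > 0` there are a unit
vector `v`, an isometry `U` and a conjugate `T S T⁻¹` of `S` by an isometry `T` such that
`T S T⁻¹` fixes `e`, changes the sign of `v` and conjugates `U` into `U⁻¹`, the powers of `U`
almost rotate the plane of `e` and `v` by all angles, and the norm of this plane is almost
Euclidean. -/
theorem result :
    ∀ (E : Type) [NormedAddCommGroup E] [NormedSpace ℝ E] [CompleteSpace E]
      [TopologicalSpace.SeparableSpace E] (S : E ≃ₗᵢ[ℝ] E),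
      (∀ x y : E, ‖x‖ = 1 → ‖y‖ = 1 → ∃ T : E ≃ₗᵢ[ℝ] E, T x = y) →
      (∀ z, S (S z) = z) → (∃ z, S z ≠ z) → (∃ z, S z ≠ -z) →
      ∀ e : E, ‖e‖ = 1 → ∀ δ : ℝ, 0 < δ →
      ∃ (v : E) (U T : E ≃ₗᵢ[ℝ] E), ‖v‖ = 1 ∧ T (S (T.symm e)) = e ∧ T (S (T.symm v)) = -v ∧
        (∀ z, T (S (T.symm (U (T (S (T.symm z)))))) = U.symm z) ∧
        AlmostRotates U e v δ ∧ AlmostEuclidean e v δ := by
  intro E _ _ _ _ S htr hS hS1 hS2 e he δ hδ
  exact Pool.Agent.X192.BM.invol htr S hS hS1 hS2 e he δ hδ

end Pool.Agent.Results.MP_cc72b1_an.InvolutionPlanes
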