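import Pool.Agent.X192.BM.LocNull

/-!
# Banach-Mazur rotation problem: locally Roelcke precompact isometry groups

Let `E` be a separable Banach space with transitive norm. Suppose that

(a) the isometry group (strong operator topology) is locally Roelcke precompact: some neighbourhood
`U` of `1` is contained in `V Q V`, `Q` finite, for every neighbourhood `V` of `1`; or

(b) for some `r > 0` the pairs of unit vectors at distance at most `r` form a totally bounded space
modulo isometries; or

(c) for some unit vector `x` and `0 < r ≤ 1` there are finitely many vectors whose orbits under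
arbitrarily small near-stabilizers of `x` are `r / 32`-dense in the part of the unit sphere at
distance at most `r` from `x` (a condition at one scale).

Then `E` is isomorphic to a Hilbert space, and isometric to one if the isometry group is amenable.

Proof. (a) implies (b) by the Baire category theorem (`H305R3/Rot/Near`: the points near `x` are
limits of images of `x` under isometries in `U`). (b) implies (c): the ultrafilter argument of the
starting file `TH578/Rot/Pairs.lean` uses total boundedness only for the pairs `(x, z)` with `z` in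
the set to be covered (`X192/BM/LocPairs.lean`). (c) excludes null orbits (`X192/BM/LocNull.lean`):
a normalized functional or vector is tested at the point `x + (r / 2) u` of the sphere near `x`; for
vectors the unknown norm of `x + (r / 2) u` is discretized. The starting file `NullOrbits` applies.
-/

set_option autoImplicit false
set_option linter.unusedVariables false

namespace Pool.Agent.Results.MP_cc72b1_an.LocallyRoelckePrecompact

open Pool.H305R3.Rot Pool.TH578.Rot Pool.Agent.X192.BM

lemma zero_case (E : Type) [NormedAddCommGroup E] [NormedSpace ℝ E] (h : ¬ ∃ x : E, ‖x‖ = 1) :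
    ∃ (H : Type) (instH : NormedAddCommGroup H) (instI : InnerProductSpace ℝ H)
      (instC : CompleteSpace H), Nonempty (E ≃ₗᵢ[ℝ] H) := by
  have h0 : ∀ v : E, v = 0 := by
    intro v
    by_contra hv
    apply h
    refine ⟨‖v‖⁻¹ • v, ?_⟩
    rw [norm_smul, norm_inv, norm_norm, inv_mul_cancel₀ (norm_ne_zero_iff.2 hv)]
  refine ⟨EuclideanSpace ℝ (Fin 0), inferInstance, inferInstance, inferInstance, ⟨?_⟩⟩
  exact
    { toFun := fun _ => 0
      invFun := fun _ => 0
      map_add' := fun _ _ => by simp
      map_smul' := fun _ _ => by simp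
      left_inv := fun v => (h0 v).symm
      right_inv := fun v => Subsingleton.elim _ _
      norm_map' := fun v => by rw [h0 v]; simp }

theorem result :
    ∀ (E : Type) [NormedAddCommGroup E] [NormedSpace ℝ E] [CompleteSpace E]
      [TopologicalSpace.SeparableSpace E],
      (∀ x y : E, ‖x‖ = 1 → ‖y‖ = 1 → ∃ T : E ≃ₗᵢ[ℝ] E, T x = y) →
      (Pool.Agent.X192.BM.LocallyRoelckePrecompact E ∨ (∃ r : ℝ, 0 < r ∧ LocalPairs E r) ∨
        ∃ (x : E) (r : ℝ), ‖x‖ = 1 ∧ 0 < r ∧ r ≤ 1 ∧ LocalCover E x r) →
      (∃ (H : Type) (instH : NormedAddCommGroup H) (instI : InnerProductSpace ℝ H)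
        (instC : CompleteSpace H), Nonempty (E ≃L[ℝ] H)) ∧
      (SOTAmenable E →
        ∃ (H : Type) (instH : NormedAddCommGroup H) (instI : InnerProductSpace ℝ H)
          (instC : CompleteSpace H), Nonempty (E ≃ₗᵢ[ℝ] H)) := by
  intro E _ _ _ _ htr h
  by_cases hx : ∃ x : E, ‖x‖ = 1
  · obtain ⟨x₀, hx₀⟩ := hx
    have hc : ∃ (x : E) (r : ℝ), ‖x‖ = 1 ∧ 0 < r ∧ r ≤ 1 ∧ LocalCover E x r := by
      have hb : (∃ r : ℝ, 0 < r ∧ LocalPairs E r) →
          ∃ (x : E) (r : ℝ), ‖x‖ = 1 ∧ 0 < r ∧ r ≤ 1 ∧ LocalCover E x r := by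
        rintro ⟨r, hr, hP⟩
        have hP' : LocalPairs E (min r 1) := by
          intro ε hε
          obtain ⟨P, hP⟩ := hP ε hε
          exact ⟨P, fun x z h1 h2 h3 => hP x z h1 h2 (h3.trans (min_le_left _ _))⟩
        have h0 : 0 < min r 1 := lt_min hr one_pos
        exact ⟨x₀, min r 1, hx₀, h0, min_le_right _ _,
          cover' htr hP' x₀ hx₀ (κ := min r 1 / 32) (by positivity)⟩
      rcases h with h | h | h
      · exact hb (localPairs_of_lrp htr hx₀ h)
      · exact hb h
      · exact h
    obtain ⟨x, r, hx, hr, hr1, hF⟩ := hc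
    have hd := dichotomy htr x hx (not_nullDual' hx hr hr1 hF) (not_nullVec' hx hr hr1 hF)
    refine ⟨hd, fun hA => ?_⟩
    obtain ⟨H, i1, i2, i3, ⟨A⟩⟩ := hd
    exact isometric_of_amenable htr hA x hx A
  · obtain ⟨H, i1, i2, i3, ⟨A⟩⟩ := zero_case E hx
    exact ⟨⟨H, i1, i2, i3, ⟨A.toContinuousLinearEquiv⟩⟩, fun _ => ⟨H, i1, i2, i3, ⟨A⟩⟩⟩

end Pool.Agent.Results.MP_cc72b1_an.LocallyRoelckePrecompact
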